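import Pool.Agent.Helper53.BM.MH.Defs2

set_option autoImplicit false

open Filter Topology

namespace Pool.Agent.Helper53.BM

universe u

variable {E : Type u} [NormedAddCommGroup E] [NormedSpace ℝ E]

namespace MH9

/-- The curve `exp (tD) D' exp (-tD)`. -/
noncomputable def G (D D' : E →L[ℝ] E) (t : ℝ) : E →L[ℝ] E :=
  NormedSpace.exp (t • D) * D' * NormedSpace.exp (-(t • D))

lemma G_zero (D D' : E →L[ℝ] E) : G D D' 0 = D' := by
  simp [G]

lemma G_deriv [CompleteSpace E] (D D' : E →L[ℝ] E) :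
    HasDerivAt (G D D') (D * D' - D' * D) 0 := by
  have h1 : HasDerivAt (fun t : ℝ => NormedSpace.exp (t • D)) D 0 := by
    have := hasDerivAt_exp_smul_const D (0 : ℝ)
    simpa using this
  have h2 : HasDerivAt (fun t : ℝ => NormedSpace.exp (-(t • D))) (-D) 0 := by
    have := hasDerivAt_exp_smul_const (-D) (0 : ℝ)
    simpa using this
  have h3 := (h1.mul_const D').mul h2
  have h4 : D * D' * NormedSpace.exp (-((0 : ℝ) • D))
      + NormedSpace.exp ((0 : ℝ) • D) * D' * (-D) = D * D' - D' * D := by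
    simp [sub_eq_add_neg]
  rw [h4] at h3
  exact h3

lemma G_mem {𝔤 : Submodule ℝ (E →L[ℝ] E)} (hg : IsStr 𝔤) {D D' : E →L[ℝ] E}
    (hD : D ∈ 𝔤) (hD' : D' ∈ 𝔤) (t : ℝ) : G D D' t ∈ 𝔤 := hg.conj D hD D' hD' t

lemma slope_tendsto [CompleteSpace E] (D D' : E →L[ℝ] E) :
    Tendsto (fun t : ℝ => t⁻¹ • (G D D' t - D')) (𝓝[≠] 0) (𝓝 (D * D' - D' * D)) := by
  have := (G_deriv D D').tendsto_slope_zero
  simpa [G_zero] using this

lemma slope_mem {𝔤 : Submodule ℝ (E →L[ℝ] E)} (hg : IsStr 𝔤) {D D' : E →L[ℝ] E}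
    (hD : D ∈ 𝔤) (hD' : D' ∈ 𝔤) (t : ℝ) : t⁻¹ • (G D D' t - D') ∈ 𝔤 :=
  𝔤.smul_mem _ (𝔤.sub_mem (G_mem hg hD hD' t) hD')

lemma slope_tendsto_apply [CompleteSpace E] (D D' : E →L[ℝ] E) (x : E) :
    Tendsto (fun t : ℝ => (t⁻¹ • (G D D' t - D')) x) (𝓝[≠] 0)
      (𝓝 (D (D' x) - D' (D x))) := by
  have h1 := slope_tendsto D D'
  have h2 := ((ContinuousLinearMap.apply ℝ E x).continuous.tendsto _).comp h1
  exact h2

/-- Commutators are annihilated at `u ∈ Zs`. -/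
lemma J_comm [CompleteSpace E] {𝔤 : Submodule ℝ (E →L[ℝ] E)} (hg : IsStr 𝔤) {z u : E}
    (hu : u ∈ Zs 𝔤 z) {D D' : E →L[ℝ] E} (hD : D ∈ 𝔤) (hD' : D' ∈ 𝔤) :
    J z (D (D' u)) = J z (D' (D u)) := by
  have h1 : Tendsto (fun t : ℝ => J z ((t⁻¹ • (G D D' t - D')) u)) (𝓝[≠] 0)
      (𝓝 (J z (D (D' u) - D' (D u)))) :=
    ((J z).continuous.tendsto _).comp (slope_tendsto_apply D D' u)
  have h2 : (fun t : ℝ => J z ((t⁻¹ • (G D D' t - D')) u)) = fun _ => (0 : ℝ) := by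
    funext t
    exact hu _ (slope_mem hg hD hD' t)
  rw [h2] at h1
  have h3 := tendsto_nhds_unique h1 tendsto_const_nhds
  rw [map_sub] at h3
  linarith

/-- Commutators map `z` into the closure of the orbit directions. -/
lemma comm_mem [CompleteSpace E] {𝔤 : Submodule ℝ (E →L[ℝ] E)} (hg : IsStr 𝔤) (z : E)
    {D D' : E →L[ℝ] E} (hD : D ∈ 𝔤) (hD' : D' ∈ 𝔤) :
    D (D' z) - D' (D z) ∈ (Ws 𝔤 z).topologicalClosure := by
  have hcl : IsClosed ((Ws 𝔤 z).topologicalClosure : Set E) :=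
    (Ws 𝔤 z).isClosed_topologicalClosure
  exact hcl.mem_of_tendsto (slope_tendsto_apply D D' z)
    (Filter.Eventually.of_forall fun t => mem_closure_Ws (slope_mem hg hD hD' t) z)

/-- Evaluation at `z` with values in the closure of the orbit directions. -/
noncomputable def ev (𝔤 : Submodule ℝ (E →L[ℝ] E)) (z : E) :
    𝔤 →ₗ[ℝ] (Ws 𝔤 z).topologicalClosure where
  toFun D := ⟨(D : E →L[ℝ] E) z, mem_closure_Ws D.2 z⟩
  map_add' D D' := by ext; simp
  map_smul' c D := by ext; simp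

lemma ev_dense (𝔤 : Submodule ℝ (E →L[ℝ] E)) (z : E) : DenseRange (ev 𝔤 z) := by
  intro w
  rw [closure_subtype]
  have h1 : Subtype.val '' (Set.range (ev 𝔤 z)) = (Ws 𝔤 z : Set E) := by
    ext x
    constructor
    · rintro ⟨y, ⟨D, rfl⟩, rfl⟩
      exact mem_Ws.mpr ⟨D, D.2, rfl⟩
    · intro hx
      obtain ⟨D, hD, rfl⟩ := mem_Ws.mp hx
      exact ⟨_, ⟨⟨D, hD⟩, rfl⟩, rfl⟩
  rw [h1]
  exact w.2

/-- Evaluation at `u`. -/
noncomputable def evu (𝔤 : Submodule ℝ (E →L[ℝ] E)) (u : E) : 𝔤 →ₗ[ℝ] E where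
  toFun D := (D : E →L[ℝ] E) u
  map_add' D D' := by simp
  map_smul' c D := by simp

end MH9

open MH9 in
/-- MH-9 with the facts about `hess z` and the estimate (7b) at `z, u` as hypotheses. -/
theorem exists_C_core [CompleteSpace E] {𝔤 : Submodule ℝ (E →L[ℝ] E)}
    (hg : IsStr 𝔤) {z u : E} (hu : u ∈ Zs 𝔤 z)
    (hsymm : ∀ v w : E, hess z v w = hess z w v)
    (hskew : ∀ D ∈ skewOps E, ∀ v : E, hess z v (D z) = - J z (D v))
    {K : ℝ} (h7 : ∀ D ∈ 𝔤, ‖D u‖ ≤ K * ‖D z‖ * ‖u‖) :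
    ∃ C : (Ws 𝔤 z).topologicalClosure →L[ℝ] E,
      (∀ (D : E →L[ℝ] E) (hD : D ∈ 𝔤), C ⟨D z, mem_closure_Ws hD z⟩ = D u) ∧
      (∀ w w' : (Ws 𝔤 z).topologicalClosure, hess z (C w) w' = hess z w (C w')) ∧
      ∀ D₀ ∈ 𝔤, D₀ z = 0 → ∀ w w' : (Ws 𝔤 z).topologicalClosure, (w' : E) = D₀ w →
        C w' = D₀ (C w) := by
  have hbd : ∀ D : 𝔤, ‖evu 𝔤 u D‖ ≤ (K * ‖u‖) * ‖ev 𝔤 z D‖ := by
    intro D
    have := h7 D D.2
    calc ‖evu 𝔤 u D‖ = ‖(D : E →L[ℝ] E) u‖ := rfl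
      _ ≤ K * ‖(D : E →L[ℝ] E) z‖ * ‖u‖ := this
      _ = (K * ‖u‖) * ‖ev 𝔤 z D‖ := by
        have : ‖ev 𝔤 z D‖ = ‖(D : E →L[ℝ] E) z‖ := rfl
        rw [this]; ring
  have hdense := ev_dense 𝔤 z
  set C : (Ws 𝔤 z).topologicalClosure →L[ℝ] E := (evu 𝔤 u).extendOfNorm (ev 𝔤 z) with hCdef
  have hC : ∀ (D : E →L[ℝ] E) (hD : D ∈ 𝔤), C ⟨D z, mem_closure_Ws hD z⟩ = D u := by
    intro D hD
    exact LinearMap.extendOfNorm_eq hdense ⟨_, hbd⟩ ⟨D, hD⟩
  refine ⟨C, hC, ?_, ?_⟩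
  · -- symmetry
    have hcl : ∀ w w' : (Ws 𝔤 z).topologicalClosure, hess z (C w) w' = hess z w (C w') := by
      intro w w'
      refine hdense.induction_on₂ (p := fun w w' => hess z (C w) w' = hess z w (C w')) ?_ ?_ w w'
      · refine isClosed_eq ?_ ?_
        · exact (((hess z).continuous.comp (C.continuous.comp continuous_fst))).clm_apply
            (continuous_subtype_val.comp continuous_snd)
        · exact (((hess z).continuous.comp (continuous_subtype_val.comp continuous_fst))).clm_apply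
            (C.continuous.comp continuous_snd)
      · intro D D'
        have e1 : C (ev 𝔤 z D) = (D : E →L[ℝ] E) u := hC D D.2
        have e2 : C (ev 𝔤 z D') = (D' : E →L[ℝ] E) u := hC D' D'.2
        have s1 : (D : E →L[ℝ] E) ∈ skewOps E := fun y => hg.skew D D.2 y
        have s2 : (D' : E →L[ℝ] E) ∈ skewOps E := fun y => hg.skew D' D'.2 y
        rw [e1, e2]
        change hess z ((D : E →L[ℝ] E) u) ((D' : E →L[ℝ] E) z)
          = hess z ((D : E →L[ℝ] E) z) ((D' : E →L[ℝ] E) u)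
        rw [hskew _ s2, hsymm ((D : E →L[ℝ] E) z), hskew _ s1, J_comm hg hu D'.2 D.2]
    exact hcl
  · intro D₀ hD₀ hD₀z w w' hw'
    have hD₀u : D₀ u = 0 := by
      have := h7 D₀ hD₀
      rw [hD₀z] at this
      simpa using this
    -- `D₀` maps the closure into itself
    have hmaps : ∀ x ∈ (Ws 𝔤 z).topologicalClosure, D₀ x ∈ (Ws 𝔤 z).topologicalClosure := by
      intro x hx
      have h1 : (Ws 𝔤 z) ≤ ((Ws 𝔤 z).topologicalClosure).comap (D₀ : E →ₗ[ℝ] E) := by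
        intro y hy
        obtain ⟨D, hD, rfl⟩ := mem_Ws.mp hy
        have := comm_mem hg z hD₀ hD
        rw [hD₀z, map_zero, sub_zero] at this
        exact this
      have h2 : IsClosed ((((Ws 𝔤 z).topologicalClosure).comap (D₀ : E →ₗ[ℝ] E) : Submodule ℝ E)
          : Set E) := by
        have : IsClosed (D₀ ⁻¹' ((Ws 𝔤 z).topologicalClosure : Set E)) :=
          (Ws 𝔤 z).isClosed_topologicalClosure.preimage D₀.continuous
        exact this
      exact (Submodule.topologicalClosure_minimal _ h1 h2) hx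
    set A : (Ws 𝔤 z).topologicalClosure → (Ws 𝔤 z).topologicalClosure :=
      fun x => ⟨D₀ x, hmaps x x.2⟩ with hA
    have hAc : Continuous A := by
      exact Continuous.subtype_mk (D₀.continuous.comp continuous_subtype_val) _
    have key : ∀ x, C (A x) = D₀ (C x) := by
      intro x
      refine hdense.induction_on (p := fun x => C (A x) = D₀ (C x)) x ?_ ?_
      · exact isClosed_eq (C.continuous.comp hAc) (D₀.continuous.comp C.continuous)
      · intro D
        have e1 : C (ev 𝔤 z D) = (D : E →L[ℝ] E) u := hC D D.2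
        rw [e1]
        have t1 : Tendsto (fun t : ℝ => (⟨(t⁻¹ • (G D₀ D t - D)) z,
            mem_closure_Ws (slope_mem hg hD₀ D.2 t) z⟩ : (Ws 𝔤 z).topologicalClosure)) (𝓝[≠] 0)
            (𝓝 (A (ev 𝔤 z D))) := by
          rw [tendsto_subtype_rng]
          have := slope_tendsto_apply D₀ (D : E →L[ℝ] E) z
          rw [hD₀z, map_zero, sub_zero] at this
          exact this
        have t2 := (C.continuous.tendsto _).comp t1
        have t3 : (C ∘ fun t : ℝ => (⟨(t⁻¹ • (G D₀ D t - D)) z,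
            mem_closure_Ws (slope_mem hg hD₀ D.2 t) z⟩ : (Ws 𝔤 z).topologicalClosure))
            = fun t : ℝ => (t⁻¹ • (G D₀ D t - D)) u := by
          funext t
          exact hC _ (slope_mem hg hD₀ D.2 t)
        rw [t3] at t2
        have t4 := slope_tendsto_apply D₀ (D : E →L[ℝ] E) u
        rw [hD₀u, map_zero, sub_zero] at t4
        exact tendsto_nhds_unique t2 t4
    have : w' = A w := Subtype.ext hw'
    rw [this]
    exact key w

end Pool.Agent.Helper53.BM
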